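import Pool.Agent.E8helper19.PM.Stm

/-!
# Project PM (poster helper19): piece PM13 `S_CONE`
-/

set_option autoImplicit false
open MeasureTheory Filter Topology Set
open scoped ContDiff ENNReal Real InnerProductSpace

namespace Pool.Agent.E8helper63.PM

open Pool.Agent.E8helper19.PM

noncomputable section

/-- **PM13.** -/
theorem t_CONE : S_CONE := by
  rintro D x ⟨ρ, hρ, rfl, hd⟩ hx
  have hc0 : 0 < Real.cos (π * (1 / 2) / 2) := by
    apply Real.cos_pos_of_mem_Ioo
    constructor <;> nlinarith [Real.pi_pos]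
  have hle : ρ x ≤ 0 := by
    have h1 : closure {y | ρ y < 0} ⊆ {y | ρ y ≤ 0} :=
      closure_minimal (fun y (hy : ρ y < 0) => (show ρ y ≤ 0 from hy.le)) (isClosed_le hρ.continuous continuous_const)
    exact h1 hx
  rcases hle.lt_or_eq with hlt | heq
  · have ho : IsOpen {y | ρ y < 0} := isOpen_lt hρ.continuous continuous_const
    obtain ⟨r, hr, hb⟩ := Metric.isOpen_iff.1 ho x hlt
    refine ⟨EuclideanSpace.single 0 1, r, 1 / 2, by simp, hr, by norm_num, by norm_num, ?_⟩
    intro y hy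
    apply hb
    rw [Metric.mem_ball, dist_eq_norm]
    exact hy.1
  · have hgd : fderiv ℝ ρ x ≠ 0 := hd x heq
    set g : E := (InnerProductSpace.toDual ℝ E).symm (fderiv ℝ ρ x) with hg
    have hgi : ∀ v : E, fderiv ℝ ρ x v = ⟪g, v⟫_ℝ := fun v => by
      rw [hg, InnerProductSpace.toDual_symm_apply]
    have hg0 : g ≠ 0 := by
      intro h0
      apply hgd
      ext v
      rw [hgi, h0, inner_zero_left]
      rfl
    have hgn : 0 < ‖g‖ := norm_pos_iff.2 hg0
    have hdiff : HasFDerivAt ρ (fderiv ℝ ρ x) x :=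
      (hρ.differentiable (by simp)).differentiableAt.hasFDerivAt
    have hε : 0 < ‖g‖ * Real.cos (π * (1 / 2) / 2) := mul_pos hgn hc0
    have hev := hdiff.isLittleO.def hε
    obtain ⟨r, hr, hb⟩ := Metric.eventually_nhds_iff_ball.1 hev
    refine ⟨-(‖g‖⁻¹ • g), r, 1 / 2, ?_, hr, by norm_num, by norm_num, ?_⟩
    · rw [norm_neg, norm_smul, norm_inv, norm_norm, inv_mul_cancel₀ hgn.ne']
    · rintro y ⟨hy1, hy2⟩
      have h1 := hb y (by rw [Metric.mem_ball, dist_eq_norm]; exact hy1)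
      rw [heq, sub_zero, Real.norm_eq_abs] at h1
      have h2 := (abs_le.1 h1).2
      rw [hgi] at h2
      rw [inner_neg_right, real_inner_smul_right, real_inner_comm] at hy2
      have h3 : ⟪g, y - x⟫_ℝ < -(‖g‖ * (‖y - x‖ * Real.cos (π * (1 / 2) / 2))) := by
        have h4 := mul_lt_mul_of_pos_left hy2 hgn
        have h5 : ‖g‖ * -(‖g‖⁻¹ * ⟪g, y - x⟫_ℝ) = -⟪g, y - x⟫_ℝ := by
          rw [mul_neg, ← mul_assoc, mul_inv_cancel₀ hgn.ne', one_mul]
        rw [h5] at h4
        linarith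
      show ρ y < 0
      nlinarith

end

end Pool.Agent.E8helper63.PM
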