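import Pool.Agent.E8helper19.PM.Stm
import Pool.Agent.Helper793.Sob

/-!
# Project PM (poster helper19): piece PM6 `S_RB`
-/

set_option autoImplicit false
open MeasureTheory Filter Topology Set
open scoped ContDiff ENNReal Real InnerProductSpace NNReal

namespace Pool.Agent.E8helper63.PM

open Pool.Agent.E8helper19.PM
open Pool.Agent.Helper793.QEig (IsTest)

noncomputable section

/-- sequences in a totally bounded family have Cauchy subsequences -/
theorem cauchy_sub {φ : ℕ → E → ℝ} (hφ : ∀ n, MemLp (φ n) 2 (volume : Measure E))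
    (h : ∀ ε : ℝ, 0 < ε → ∃ T : Set (E → ℝ), T.Finite ∧ (∀ ψ ∈ T, MemLp ψ 2 (volume : Measure E)) ∧
      ∀ n, ∃ ψ ∈ T, eLpNorm (fun x => φ n x - ψ x) 2 volume ≤ ENNReal.ofReal ε) :
    ∃ τ : ℕ → ℕ, StrictMono τ ∧ ∀ ε : ℝ, 0 < ε → ∃ N, ∀ m ≥ N, ∀ n ≥ N,
      eLpNorm (fun x => φ (τ m) x - φ (τ n) x) 2 volume < ENNReal.ofReal ε := by
  classical
  set u : ℕ → Lp ℝ 2 (volume : Measure E) := fun n => (hφ n).toLp (φ n) with hu
  have htb : TotallyBounded (range u) := by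
    rw [Metric.totallyBounded_iff]
    intro ε hε
    obtain ⟨T, hT, hT2, hT3⟩ := h (ε / 2) (by linarith)
    refine ⟨(fun ψ : E → ℝ => if hψ : MemLp ψ 2 (volume : Measure E) then hψ.toLp ψ else 0) '' T,
      hT.image _, ?_⟩
    rintro _ ⟨n, rfl⟩
    obtain ⟨ψ, hψ, hd⟩ := hT3 n
    simp only [mem_iUnion]
    refine ⟨_, ⟨ψ, hψ, rfl⟩, ?_⟩
    simp only [hT2 ψ hψ, dif_pos]
    rw [Metric.mem_ball, hu, dist_eq_norm, ← MemLp.toLp_sub, Lp.norm_toLp]
    have h1 : (eLpNorm (φ n - ψ) 2 volume).toReal ≤ ε / 2 := by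
      have h2 : eLpNorm (φ n - ψ) 2 volume ≤ ENNReal.ofReal (ε / 2) := hd
      have h3 := ENNReal.toReal_mono ENNReal.ofReal_ne_top h2
      rwa [ENNReal.toReal_ofReal (by linarith)] at h3
    linarith
  have hc : IsCompact (closure (range u)) :=
    isCompact_iff_totallyBounded_isComplete.2 ⟨htb.closure, isClosed_closure.isComplete⟩
  obtain ⟨a, -, τ, hτ, hlim⟩ := hc.tendsto_subseq (fun n => subset_closure (mem_range_self n))
  refine ⟨τ, hτ, fun ε hε => ?_⟩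
  have hcs := hlim.cauchySeq
  rw [Metric.cauchySeq_iff] at hcs
  obtain ⟨N, hN⟩ := hcs ε hε
  refine ⟨N, fun m hm n hn => ?_⟩
  have h1 := hN m hm n hn
  simp only [Function.comp_apply, hu] at h1
  rw [dist_eq_norm, ← MemLp.toLp_sub, Lp.norm_toLp] at h1
  have h2 : eLpNorm (φ (τ m) - φ (τ n)) 2 volume ≠ ⊤ := ((hφ _).sub (hφ _)).2.ne
  change eLpNorm (φ (τ m) - φ (τ n)) 2 volume < ENNReal.ofReal ε
  rw [← ENNReal.toReal_lt_toReal h2 ENNReal.ofReal_ne_top, ENNReal.toReal_ofReal hε.le]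
  exact h1

theorem norm_fderiv_le (f : E → ℂ) (y : E) : ‖fderiv ℝ f y‖ ≤ ‖gr f y‖ := by
  refine ContinuousLinearMap.opNorm_le_bound _ (norm_nonneg _) fun v => ?_
  have h1 : fderiv ℝ f y v = ∑ j, (v j : ℂ) * pd j f y := by
    have h2 : v = ∑ j, v j • EuclideanSpace.single j (1 : ℝ) := by
      ext i
      simp [Finset.sum_apply, Pi.single_apply]
    conv_lhs => rw [h2]
    rw [map_sum]
    apply Finset.sum_congr rfl
    intro j _
    rw [map_smul, Complex.real_smul]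
    rfl
  rw [h1]
  have h3 : ‖∑ j, (v j : ℂ) * pd j f y‖ ≤ ∑ j, ‖pd j f y‖ * |v j| := by
    refine (norm_sum_le _ _).trans (Finset.sum_le_sum fun j _ => ?_)
    rw [norm_mul, Complex.norm_real, Real.norm_eq_abs, mul_comm]
  refine h3.trans ?_
  have h4 : (∑ j, ‖pd j f y‖ * |v j|) ^ 2 ≤ (‖gr f y‖ * ‖v‖) ^ 2 := by
    refine (Finset.sum_mul_sq_le_sq_mul_sq _ _ _).trans (le_of_eq ?_)
    rw [mul_pow, EuclideanSpace.norm_sq_eq, EuclideanSpace.norm_sq_eq]
    simp [gr]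
  exact abs_le_of_sq_le_sq' h4 (by positivity) |>.2

theorem pd_cont {f : E → ℂ} (hf : ContDiff ℝ ∞ f) (j : Fin 3) : Continuous (pd j f) := by
  have h1 : Continuous (fderiv ℝ f) := hf.continuous_fderiv (by simp)
  exact h1.clm_apply continuous_const

theorem gr_cont {f : E → ℂ} (hf : ContDiff ℝ ∞ f) : Continuous (gr f) := by
  unfold gr
  exact (PiLp.continuous_toLp 2 _).comp (continuous_pi fun j => pd_cont hf j)

theorem gr_cpt {f : E → ℂ} (hf : HasCompactSupport f) : HasCompactSupport (gr f) := by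
  refine (hf.fderiv (𝕜 := ℝ)).mono ?_
  intro y hy
  rw [Function.mem_support] at hy ⊢
  intro h0
  apply hy
  unfold gr pd
  rw [h0]
  rfl

/-- from `H1` to `eLpNorm` -/
theorem fd_le {Ω : Set E} {f : E → ℂ} (hf : Tst Ω f) {M : ℝ} (hM : H1 univ f ≤ M) :
    eLpNorm (gr f) 2 (volume : Measure E) ≤ (Real.toNNReal (√M) : ℝ≥0) := by
  have hc := gr_cont hf.smooth
  have hcs := gr_cpt hf.cpt
  have hi : Integrable (fun y => ‖gr f y‖ ^ 2) := by
    apply (hc.norm.pow 2).integrable_of_hasCompactSupport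
    refine hcs.mono fun y hy => ?_
    rw [Function.mem_support] at hy ⊢
    intro h0
    apply hy
    simp [h0]
  have hi2 : Integrable (fun y => ‖f y‖ ^ 2) := by
    apply (hf.smooth.continuous.norm.pow 2).integrable_of_hasCompactSupport
    refine hf.cpt.mono fun y hy => ?_
    rw [Function.mem_support] at hy ⊢
    intro h0
    apply hy
    simp [h0]
  have h1 : ∫ y, ‖gr f y‖ ^ 2 ≤ M := by
    refine le_trans ?_ hM
    unfold H1
    rw [setIntegral_univ, integral_add hi2 hi]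
    have : 0 ≤ ∫ y, ‖f y‖ ^ 2 := integral_nonneg fun y => by positivity
    linarith
  have hM0 : 0 ≤ M := (integral_nonneg fun y => by positivity).trans h1
  have h2 : eLpNorm (gr f) 2 (volume : Measure E) ^ 2 ≤ ((Real.toNNReal (√M) : ℝ≥0) : ℝ≥0∞) ^ 2 := by
    rw [Pool.Agent.Helper793.Sob.eLpNorm_two_sq]
    have h3 : ∫⁻ x, ‖gr f x‖ₑ ^ 2 = ENNReal.ofReal (∫ y, ‖gr f y‖ ^ 2) := by
      rw [ofReal_integral_eq_lintegral_ofReal hi (Eventually.of_forall fun y => by positivity)]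
      apply lintegral_congr
      intro y
      rw [ENNReal.ofReal_pow (norm_nonneg _), ofReal_norm]
    rw [h3]
    have h4 : ((Real.toNNReal (√M) : ℝ≥0) : ℝ≥0∞) ^ 2 = ENNReal.ofReal M := by
      change (ENNReal.ofReal (√M)) ^ 2 = _
      rw [← ENNReal.ofReal_pow (Real.sqrt_nonneg _), Real.sq_sqrt hM0]
    rw [h4]
    exact ENNReal.ofReal_le_ofReal h1
  exact (ENNReal.pow_le_pow_left_iff (by norm_num)).mp h2

/-- the real and the imaginary part -/
theorem part_test {Ω : Set E} {f : E → ℂ} (hf : Tst Ω f) (L : ℂ →L[ℝ] ℝ) (hL : ‖L‖ ≤ 1) :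
    IsTest Ω (fun y => L (f y)) ∧
      eLpNorm (fderiv ℝ (fun y => L (f y))) 2 (volume : Measure E) ≤
        eLpNorm (gr f) 2 (volume : Measure E) := by
  have hs : Function.support (fun y => L (f y)) ⊆ Function.support f := by
    intro y hy
    rw [Function.mem_support] at hy ⊢
    intro h0
    apply hy
    rw [h0, map_zero]
  refine ⟨⟨L.contDiff.comp hf.smooth, hf.cpt.mono hs, (closure_mono hs).trans hf.supp⟩, ?_⟩
  refine eLpNorm_mono fun y => ?_
  have h1 : HasFDerivAt (fun y => L (f y)) (L.comp (fderiv ℝ f y)) y :=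
    L.hasFDerivAt.comp y (hf.smooth.differentiable (by simp)).differentiableAt.hasFDerivAt
  rw [h1.fderiv]
  calc ‖L.comp (fderiv ℝ f y)‖ ≤ ‖L‖ * ‖fderiv ℝ f y‖ := ContinuousLinearMap.opNorm_comp_le _ _
    _ ≤ 1 * ‖fderiv ℝ f y‖ := by gcongr
    _ ≤ ‖gr f y‖ := by rw [one_mul]; exact norm_fderiv_le f y

theorem part_sub {Ω : Set E} {M : ℝ} {f : ℕ → E → ℂ} (hΩ : Bornology.IsBounded Ω)
    (hf : ∀ n, Tst Ω (f n)) (hM : ∀ n, H1 univ (f n) ≤ M) (L : ℂ →L[ℝ] ℝ) (hL : ‖L‖ ≤ 1) :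
    ∃ τ : ℕ → ℕ, StrictMono τ ∧ ∀ ε : ℝ, 0 < ε → ∃ N, ∀ m ≥ N, ∀ n ≥ N,
      eLpNorm (fun x => L (f (τ m) x) - L (f (τ n) x)) 2 volume < ENNReal.ofReal ε := by
  have hmem : ∀ φ : E → ℝ, IsTest Ω φ → MemLp φ 2 (volume : Measure E) := fun φ hφ =>
    hφ.1.continuous.memLp_of_hasCompactSupport hφ.2.1
  apply cauchy_sub (φ := fun n x => L (f n x)) (fun n => hmem _ (part_test (hf n) L hL).1)
  intro ε hε
  obtain ⟨T, hT, hT2, hT3⟩ := Pool.Agent.Helper793.Sob.rellich (N := 3) (by norm_num) hΩ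
    (Real.toNNReal (√M)) hε
  refine ⟨T, hT, fun ψ hψ => hmem ψ (hT2 ψ hψ).1, fun n => ?_⟩
  exact hT3 _ (part_test (hf n) L hL).1 ((part_test (hf n) L hL).2.trans (fd_le (hf n) (hM n)))

/-- **PM6.** -/
theorem t_RB : S_RB := by
  intro Ω M f hΩ hf hM
  obtain ⟨τ1, hτ1, h1⟩ := part_sub hΩ hf hM Complex.reCLM Complex.reCLM_norm.le
  obtain ⟨τ2, hτ2, h2⟩ := part_sub hΩ (fun n => hf (τ1 n)) (fun n => hM (τ1 n))
    Complex.imCLM Complex.imCLM_norm.le
  refine ⟨τ1 ∘ τ2, hτ1.comp hτ2, fun ε hε => ?_⟩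
  set δ : ℝ := √(ε / 2) with hδ
  have hδ0 : 0 < δ := Real.sqrt_pos.2 (by linarith)
  obtain ⟨N1, hN1⟩ := h1 δ hδ0
  obtain ⟨N2, hN2⟩ := h2 δ hδ0
  refine ⟨max N1 N2, fun m hm n hn => ?_⟩
  have k1 := hN1 (τ2 m) (((le_max_left _ _).trans hm).trans (hτ2.id_le m)) (τ2 n)
    (((le_max_left _ _).trans hn).trans (hτ2.id_le n))
  have k2 := hN2 m ((le_max_right _ _).trans hm) n ((le_max_right _ _).trans hn)
  set F : E → ℂ := fun y => f ((τ1 ∘ τ2) m) y - f ((τ1 ∘ τ2) n) y with hF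
  have hFc : Continuous F := (hf _).smooth.continuous.sub (hf _).smooth.continuous
  have hFs : HasCompactSupport F := (hf _).cpt.sub (hf _).cpt
  have key : ∀ L : ℂ →L[ℝ] ℝ, (eLpNorm (fun x => L (F x)) 2 volume < ENNReal.ofReal δ) →
      Integrable (fun y => (L (F y)) ^ 2) ∧ ∫ y, (L (F y)) ^ 2 ≤ ε / 2 := by
    intro L hL
    have hi : Integrable (fun y => (L (F y)) ^ 2) := by
      apply ((L.continuous.comp hFc).pow 2).integrable_of_hasCompactSupport
      refine hFs.mono fun y hy => ?_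
      rw [Function.mem_support] at hy ⊢
      intro h0
      apply hy
      simp [h0]
    refine ⟨hi, ?_⟩
    have h3 : ENNReal.ofReal (∫ y, (L (F y)) ^ 2) ≤ ENNReal.ofReal (ε / 2) := by
      have h4 : ENNReal.ofReal (∫ y, (L (F y)) ^ 2) = eLpNorm (fun x => L (F x)) 2 volume ^ 2 := by
        rw [Pool.Agent.Helper793.Sob.eLpNorm_two_sq,
          ofReal_integral_eq_lintegral_ofReal hi (Eventually.of_forall fun y => by positivity)]
        apply lintegral_congr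
        intro y
        rw [show (L (F y)) ^ 2 = ‖L (F y)‖ ^ 2 by rw [Real.norm_eq_abs, sq_abs],
          ENNReal.ofReal_pow (norm_nonneg _), ofReal_norm]
      rw [h4]
      have h5 : ENNReal.ofReal (ε / 2) = ENNReal.ofReal δ ^ 2 := by
        rw [← ENNReal.ofReal_pow hδ0.le, hδ, Real.sq_sqrt (by linarith)]
      rw [h5]
      exact pow_le_pow_left₀ zero_le hL.le 2
    exact (ENNReal.ofReal_le_ofReal_iff (by linarith)).1 h3
  have e1 : (fun x => Complex.reCLM (f (τ1 (τ2 m)) x) - Complex.reCLM (f (τ1 (τ2 n)) x)) =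
      fun x => Complex.reCLM (F x) := by
    funext x
    simp [hF]
  have e2 : (fun x => Complex.imCLM (f (τ1 (τ2 m)) x) - Complex.imCLM (f (τ1 (τ2 n)) x)) =
      fun x => Complex.imCLM (F x) := by
    funext x
    simp [hF]
  rw [e1] at k1
  rw [e2] at k2
  obtain ⟨i1, b1⟩ := key _ k1
  obtain ⟨i2, b2⟩ := key _ k2
  have h6 : ∀ y, ‖F y‖ ^ 2 = (Complex.reCLM (F y)) ^ 2 + (Complex.imCLM (F y)) ^ 2 := by
    intro y
    rw [Complex.sq_norm, Complex.normSq_apply]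
    simp only [Complex.reCLM_apply, Complex.imCLM_apply]
    ring
  change ∫ y, ‖F y‖ ^ 2 ≤ ε
  simp only [h6]
  rw [integral_add i1 i2]
  linarith

end

end Pool.Agent.E8helper63.PM
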